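import Mathlib
import Pool.Agent.Lib.AC0IP.Main
import Pool.Agent.Lib.AC0IP.Upper

set_option autoImplicit false

namespace Pool.Agent.Results.MP_d404e6_lc.ConstantDepth

open Pool.Agent.AC0IP

/-- Let `k ≥ 3`. If a verifier whose messages and verdict are, for fixed coins and answers,
computed by circuits with `S` gates and depth `d`, decides `k`-UNSAT on `v` variables (inputs of
`N = (2 v) ^ k` bits) with completeness `c` and soundness error `s` against any class `C` of
provers, then the number of rounds (bits of the prover, input-dependent bits of the verifier) is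
`N` up to polylogarithmic factors; whereas `k`-SAT has proofs with `v` bits checked by one AND
gate, and `N` bits suffice for every language. -/
theorem result (k : ℕ) (hk : 3 ≤ k) (v : ℕ) :
    (∀ (S d : ℕ) (V : Verifier (Clause k v)) (C : Set V.Prover) (c s : ℝ),
      V.Small S d → V.Decides C (UNSAT k v) c s →
      (c - s) * (v : ℝ) ^ k ≤ k * (5 * k) ^ k * (V.len + (v : ℝ) ^ (k - 1)) *
        (784 * (Nat.log 2 (S + V.len + v + 2) : ℝ)) ^ (d + 2)) ∧
    (∃ V : Verifier (Clause k v), V.len = v ∧ V.Small 1 1 ∧
      V.Decides Set.univ (SAT k v) 1 0) ∧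
    ∀ L : Set (Clause k v → Bool), ∃ V : Verifier (Clause k v), V.len = (2 * v) ^ k ∧
      V.Small 1 1 ∧ V.Decides Set.univ L 1 0 := by
  refine ⟨fun S d V C c s hS hV => lower k v S d hk V C c s hS hV, upper_sat k v, fun L => ?_⟩
  obtain ⟨V, h1, h2, h3⟩ := upper_all (Clause k v) L
  refine ⟨V, ?_, h2, h3⟩
  rw [h1, Fintype.card_fun, Fintype.card_prod, Fintype.card_fin, Fintype.card_fin,
    Fintype.card_bool, mul_comm v 2]

end Pool.Agent.Results.MP_d404e6_lc.ConstantDepth
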