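import Mathlib
import Pool.Agent.Lib.FIP.Lower
import Pool.Agent.Lib.FIP.Upper

set_option autoImplicit false

namespace Pool.Agent.Results.MP_d404e6_lc.FormulaSize

open Pool.Agent.AC0IP Pool.Agent.FIP

/-- Let `k ≥ 3`. If a verifier whose messages and verdict are, for fixed coins and answers,
de Morgan formulas with at most `S` leaves in total during each interaction decides `k`-UNSAT on
`v` variables (inputs of `N = (2 v) ^ k` bits) with completeness `c` and soundness error `s`
against any class `C` of provers, then `(c - s) ^ 3 * N ^ 3` is at most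
`S ^ 2 * log S * (M + N ^ (1 - 1 / k))` up to a constant, where `M` is the number of rounds (bits
of the prover, input-dependent bits of the verifier). In contrast `k`-SAT has proofs with `v` bits
checked by formulas with `v ^ k` leaves, and with `N` bits and `N` leaves every language can be
decided. -/
theorem result (k : ℕ) (hk : 3 ≤ k) (v : ℕ) :
    (∀ (S : ℕ) (V : Verifier (Clause k v)) (C : Set V.Prover) (c s : ℝ),
      FormulaSmall V S → V.Decides C (UNSAT k v) c s →
      (c - s) ^ 3 * (v : ℝ) ^ (3 * k) ≤ 2 ^ 24 * k * (5 * k) ^ (3 * k) *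
        ((S + 1) ^ 2 * Real.log (S + 2) * (V.len + (v : ℝ) ^ (k - 1)))) ∧
    (∃ V : Verifier (Clause k v), V.len = v ∧ FormulaSmall V (v ^ k) ∧
      V.Decides Set.univ (SAT k v) 1 0) ∧
    ∀ L : Set (Clause k v → Bool), ∃ V : Verifier (Clause k v), V.len = (2 * v) ^ k ∧
      FormulaSmall V ((2 * v) ^ k) ∧ V.Decides Set.univ L 1 0 := by
  refine ⟨fun S V C c s hS hV => lower k v S hk V C c s hS hV, upper_sat k v, fun L => ?_⟩
  obtain ⟨V, h1, h2, h3⟩ := upper_all (Clause k v) L
  have hc : Fintype.card (Clause k v) = (2 * v) ^ k := by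
    rw [Fintype.card_fun, Fintype.card_prod, Fintype.card_fin, Fintype.card_fin,
      Fintype.card_bool, mul_comm v 2]
  rw [hc] at h1 h2
  exact ⟨V, h1, h2, h3⟩

end Pool.Agent.Results.MP_d404e6_lc.FormulaSize
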