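import Mathlib
import Pool.Agent.Lib.MP_d404e6_lc.Final

set_option autoImplicit false

namespace Pool.Agent.Results.MP_d404e6_lc.MonadicCase

open Pool.Agent.MIP

/-- 3-UNSAT is in monadic coNP, but it is decided by no monadic interactive proof protocol, with
any number of rounds, private random sets as coins, first-order verifier, completeness `c` and
soundness error `s < c`, not even on the formulas all of whose clauses are literals `x`, `¬ x` or
implications `¬ x ∨ y` (the directed reachability problem). -/
theorem result : MonadicCoNP Unsat ∧
    ∀ (P : Protocol cnf3) (c s : ℝ), s < c → ¬ P.Decides Implicational Unsat c s :=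
  ⟨unsat_coNP, no_protocol⟩

end Pool.Agent.Results.MP_d404e6_lc.MonadicCase
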