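import Mathlib
import Pool.Agent.Lib.MonoIP.Lower
import Pool.Agent.Lib.MonoIP.Upper

set_option autoImplicit false

namespace Pool.Agent.Results.MP_d404e6_lc.MonotoneVerifiers

open Pool.Agent.AC0IP Pool.Agent.MonoIP

/-- Let `k ≥ 3`. If a verifier whose messages do not depend on the input and whose verdict is, for
fixed coins and answers, computed by a monotone circuit with `S` gates of unbounded fan-in (and
arbitrary depth) decides `k`-UNSAT on `v` variables (inputs of `N = (2 v) ^ k` bits) with
completeness `c` and soundness error `s` against any class `C` of provers, then the prover sends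
`(c - s) ^ 3 N / O (log S) ^ 5` bits. In contrast `k`-SAT, given by the indicators of the absent
clauses, has proofs with `v` bits checked by one monotone gate, and `N` bits and one monotone gate
suffice for every monotone language. -/
theorem result (k : ℕ) (hk : 3 ≤ k) (v : ℕ) :
    (∀ (S : ℕ) (V : Verifier (Pool.Agent.AC0IP.Clause k v)) (C : Set V.Prover) (c s : ℝ),
      MonotoneSmall V S → V.Decides C (UNSAT k v) c s →
      (c - s) ^ 3 * (v : ℝ) ^ k ≤ 2 ^ 19 * (12 * k) ^ (k - 1) *
        (Nat.log 2 S + 3 : ℕ) ^ 5 * (V.len + (Nat.log 2 S + 3 : ℕ) * (v : ℝ) ^ (k - 1))) ∧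
    (∃ V : Verifier (Pool.Agent.AC0IP.Clause k v), V.len = v ∧ MonotoneSmall V 1 ∧
      V.Decides Set.univ {z | (fun cl => !z cl) ∈ SAT k v} 1 0) ∧
    ∀ L : Set (Pool.Agent.AC0IP.Clause k v → Bool),
      (∀ z ∈ L, ∀ z' : Pool.Agent.AC0IP.Clause k v → Bool,
        (∀ cl, z cl = true → z' cl = true) → z' ∈ L) →
      ∃ V : Verifier (Pool.Agent.AC0IP.Clause k v), V.len = (2 * v) ^ k ∧ MonotoneSmall V 1 ∧
        V.Decides Set.univ L 1 0 := by
  refine ⟨fun S V C c s hS hV => lower hk v S V hS hV, upper_sat k v, fun L hL => ?_⟩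
  obtain ⟨V, h1, h2, h3⟩ := upper_all (Pool.Agent.AC0IP.Clause k v) L hL
  refine ⟨V, ?_, h2, h3⟩
  rw [h1, Fintype.card_fun, Fintype.card_prod, Fintype.card_fin, Fintype.card_fin,
    Fintype.card_bool, mul_comm v 2]

end Pool.Agent.Results.MP_d404e6_lc.MonotoneVerifiers
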